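import Mathlib
import Pool.Agent.N290.RJ.Stm
import Pool.Agent.N290.RJ.Un

/-!
# Bergman projection of a bounded function on the ball of `ℂ^(d+1)` (part `Cmain` of helper290's
project RJ), generalising the two-dimensional proof `Pool.Agent.N695.RI.CM` of helper695 after the
paper proof of helper290. Everybody of the project RJ is a co-author.
-/

set_option autoImplicit false

open Complex MeasureTheory Set Filter Topology
open scoped ENNReal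

namespace Pool.Agent.N7.RJ

open Pool.Agent.N290.RJ hiding ker

variable {d : ℕ}

theorem norm_fst_lt {ξ : E d} (hξ : ξ ∈ B d) : ‖ξ.1‖ < 1 := by
  have h : N ξ < 1 := hξ
  unfold N at h
  have h2 : 0 ≤ ∑ i, ‖ξ.2 i‖ ^ 2 := Finset.sum_nonneg (fun i _ => sq_nonneg _)
  nlinarith [norm_nonneg ξ.1]

theorem u_lower {x : ℝ} (h0 : 0 ≤ x) {ξ : E d} (hξ : ξ ∈ B d) :
    1 - x ≤ ‖1 - (x : ℂ) * ξ.1‖ := by
  have h1 := norm_fst_lt hξ
  have h2 : ‖(1 : ℂ)‖ - ‖(x : ℂ) * ξ.1‖ ≤ ‖1 - (x : ℂ) * ξ.1‖ := norm_sub_norm_le _ _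
  rw [norm_one, norm_mul, Complex.norm_real, Real.norm_eq_abs, abs_of_nonneg h0] at h2
  have h3 : x * ‖ξ.1‖ ≤ x * 1 := mul_le_mul_of_nonneg_left h1.le h0
  linarith

theorem u_ne {x : ℝ} (h0 : 0 ≤ x) (h1 : x < 1) {ξ : E d} (hξ : ξ ∈ B d) :
    1 - (x : ℂ) * ξ.1 ≠ 0 := by
  have := u_lower h0 hξ
  intro h
  rw [h, norm_zero] at this
  linarith

theorem contDiff_u (x : ℝ) : ContDiff ℝ 1 (fun ξ : E d => 1 - (x : ℂ) * ξ.1) := by
  fun_prop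

theorem contDiffOn_uinv {x : ℝ} (h0 : 0 ≤ x) (h1 : x < 1) :
    ContDiffOn ℝ 1 (fun ξ : E d => (1 - (x : ℂ) * ξ.1)⁻¹) (B d) :=
  (contDiff_u x).contDiffOn.inv (fun _ hξ => u_ne h0 h1 hξ)

theorem contDiffOn_Ph {x : ℝ} (h0 : 0 ≤ x) (h1 : x < 1) : ContDiffOn ℝ 1 (Ph (d := d) x) (B d) := by
  have hu := contDiffOn_uinv (d := d) h0 h1
  have e : Ph (d := d) x = fun ξ : E d => (((x : ℂ) - ξ.1) * (1 - (x : ℂ) * ξ.1)⁻¹,
      (-((Real.sqrt (1 - x ^ 2) : ℝ) : ℂ) * (1 - (x : ℂ) * ξ.1)⁻¹) • ξ.2) := by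
    funext ξ
    simp only [Ph, div_eq_mul_inv]
  rw [e]
  refine ContDiffOn.prodMk ?_ ?_
  · exact ContDiffOn.mul (by fun_prop) hu
  · exact ContDiffOn.smul (ContDiffOn.mul contDiffOn_const hu) (by fun_prop)

theorem measurable_Ph (x : ℝ) : Measurable (Ph (d := d) x) := by
  unfold Ph
  refine Measurable.prodMk (by fun_prop) ?_
  refine measurable_pi_iff.mpr (fun i => ?_)
  simp only [Pi.smul_apply, smul_eq_mul]
  fun_prop

theorem measurable_ker (z : E d) : Measurable (N290.RJ.ker z) := by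
  unfold Pool.Agent.N290.RJ.ker Dl ip N
  fun_prop

/-- holomorphic power of the inverse -/
theorem hol_v {x : ℝ} (h0 : 0 ≤ x) (h1 : x < 1) (n : ℕ) {ξ : E d} (hξ : ξ ∈ B d) :
    DifferentiableAt ℂ (fun ξ : E d => ((1 - (x : ℂ) * ξ.1)⁻¹) ^ n) ξ := by
  have h : DifferentiableAt ℂ (fun ξ : E d => 1 - (x : ℂ) * ξ.1) ξ := by fun_prop
  exact (h.inv (u_ne h0 h1 hξ)).pow n

theorem Cmain_of (d : ℕ) (h2 : C2 d) (h3 : C3 d) (h4 : C4 d) (h4b : C4b d) (h5 : C5 d)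
    (h6 : C6 d) (h10 : C10 d) : Cmain d := by
  obtain ⟨hvol0, hvol1⟩ := h10
  obtain ⟨V, hV⟩ : ∃ V : ℝ, V = (volume (B d)).toReal := ⟨_, rfl⟩
  have hVpos : 0 < V := by
    rw [hV]
    exact ENNReal.toReal_pos hvol0.ne' hvol1.ne
  refine ⟨1 / V, by positivity, ?_⟩
  intro γ M e hγ hM he he0 hdb
  have hγm : AEStronglyMeasurable γ (volume.restrict (B d)) :=
    hγ.continuousOn.aestronglyMeasurable B_meas
  refine ⟨fun z => ((1 / V : ℝ) : ℂ) * ∫ w in B d, γ w / (1 - ip z w) ^ (d + 2),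
    (h5 γ M hγm hM).const_mul _, ?_⟩
  intro z hz
  obtain ⟨U, hU, -, hUz⟩ := h4b z
  obtain ⟨x, hx⟩ : ∃ x : ℝ, x = nm z := ⟨_, rfl⟩
  rw [← hx] at hUz
  have hx0 : 0 ≤ x := hx ▸ nm_nonneg z
  have hx1 : x < 1 := by rw [hx]; exact mem_B_nm.1 hz
  obtain ⟨hPB, hPl, hPi⟩ := h3 x hx0 hx1
  obtain ⟨-, hUi, hUl⟩ := h4 U hU
  -- the inner map
  have hφB : ∀ ξ ∈ B d, U (Ph x ξ) ∈ B d := fun ξ hξ => (hU.mem _).2 (hPB ξ hξ)
  have hx2 : (0 : ℝ) < 1 - x ^ 2 := by nlinarith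
  have hx3 : ((1 : ℂ) - (x : ℂ) ^ 2) ≠ 0 := by
    have : ((1 - x ^ 2 : ℝ) : ℂ) ≠ 0 := by exact_mod_cast hx2.ne'
    simpa using this
  obtain ⟨Γ, hΓ⟩ : ∃ Γ : E d → ℂ,
    Γ = fun ξ => γ (U (Ph x ξ)) * ((1 - (x : ℂ) * ξ.1)⁻¹) ^ (d + 2) := ⟨_, rfl⟩
  -- the integral
  have hint : ∫ w in B d, γ w / (1 - ip z w) ^ (d + 2) = ∫ ξ in B d, Γ ξ := by
    rw [hUi (fun w => γ w / (1 - ip z w) ^ (d + 2)), hPi]
    refine setIntegral_congr_fun B_meas ?_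
    intro ξ hξ
    obtain ⟨-, -, -, -, h65, -⟩ := h6 x hx0 hx1 ξ hξ
    have hip : ip z (U (Ph x ξ)) = ip ((x : ℂ), 0) (Ph x ξ) := by
      rw [← hUz, hU.ip]
    simp only [hΓ]
    rw [hip, h65]
    have hu := u_ne hx0 hx1 hξ
    have hu' : starRingEnd ℂ (1 - (x : ℂ) * ξ.1) ≠ 0 := (map_ne_zero _).2 hu
    have hn : ((‖1 - (x : ℂ) * ξ.1‖ ^ 2 : ℝ) : ℂ) =
        (1 - (x : ℂ) * ξ.1) * starRingEnd ℂ (1 - (x : ℂ) * ξ.1) := (mulconj _).symm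
    have hq : ((((1 - x ^ 2) / ‖1 - (x : ℂ) * ξ.1‖ ^ 2) ^ (d + 2) : ℝ) : ℂ) =
        ((1 - (x : ℂ) ^ 2) / ((1 - (x : ℂ) * ξ.1) * starRingEnd ℂ (1 - (x : ℂ) * ξ.1))) ^
          (d + 2) := by
      rw [Complex.ofReal_pow, Complex.ofReal_div, hn]
      push_cast
      rfl
    rw [hq, div_pow, div_pow, mul_pow, inv_pow]
    have p1 : ((1 : ℂ) - (x : ℂ) ^ 2) ^ (d + 2) ≠ 0 := pow_ne_zero _ hx3
    have p2 : (1 - (x : ℂ) * ξ.1) ^ (d + 2) ≠ 0 := pow_ne_zero _ hu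
    have p3 : (starRingEnd ℂ (1 - (x : ℂ) * ξ.1)) ^ (d + 2) ≠ 0 := pow_ne_zero _ hu'
    generalize ((1 : ℂ) - (x : ℂ) ^ 2) ^ (d + 2) = a1 at p1 ⊢
    generalize (1 - (x : ℂ) * ξ.1) ^ (d + 2) = a2 at p2 ⊢
    generalize (starRingEnd ℂ (1 - (x : ℂ) * ξ.1)) ^ (d + 2) = a3 at p3 ⊢
    field_simp
  have hΓ0 : Γ 0 = γ z := by
    have : Ph (d := d) x 0 = ((x : ℂ), 0) := by simp [Ph]
    simp only [hΓ, this, hUz]
    simp
  have hφC : ContDiffOn ℝ 1 (fun ξ => U (Ph x ξ)) (B d) := by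
    have h : ContDiff ℝ 1 (fun ξ : E d => (U.restrictScalars ℝ) ξ) :=
      (U.restrictScalars ℝ).contDiff
    exact h.comp_contDiffOn (contDiffOn_Ph hx0 hx1)
  have hγC : ContDiffOn ℝ 1 (fun ξ => γ (U (Ph x ξ))) (B d) := hγ.comp hφC hφB
  have hvC : ContDiffOn ℝ 1 (fun ξ : E d => ((1 - (x : ℂ) * ξ.1)⁻¹) ^ (d + 2)) (B d) :=
    (contDiffOn_uinv hx0 hx1).pow (d + 2)
  have hΓC : ContDiffOn ℝ 1 Γ (B d) := by
    rw [hΓ]; exact hγC.mul hvC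
  have hM0 : 0 ≤ M := (norm_nonneg _).trans (hM 0 zero_mem_B)
  have hΓM : ∀ ξ ∈ B d, ‖Γ ξ‖ ≤ M * ((1 - x)⁻¹) ^ (d + 2) := by
    intro ξ hξ
    rw [hΓ]
    simp only [norm_mul, norm_pow, norm_inv]
    refine mul_le_mul (hM _ (hφB ξ hξ)) ?_ (by positivity) hM0
    have := u_lower hx0 hξ
    have h1x : 0 < 1 - x := by linarith
    gcongr
  obtain ⟨e1, he1⟩ : ∃ e1 : E d → ℝ,
      e1 = fun ξ => e (U (Ph x ξ)) * (‖1 - (x : ℂ) * ξ.1‖⁻¹) ^ (d + 2) := ⟨_, rfl⟩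
  have hUm : Measurable (U : E d → E d) := U.continuous.measurable
  have he1m : Measurable e1 := by
    rw [he1]
    have h1 : Measurable (fun ξ => e (U (Ph x ξ))) :=
      he.comp (hUm.comp (measurable_Ph x))
    have h2 : Measurable (fun ξ : E d => (‖1 - (x : ℂ) * ξ.1‖⁻¹) ^ (d + 2)) := by fun_prop
    exact h1.mul h2
  have he10 : ∀ ξ ∈ B d, 0 ≤ e1 ξ := by
    intro ξ hξ
    rw [he1]
    have := he0 _ (hφB ξ hξ)
    positivity
  have hΓdb : ∀ ξ ∈ B d, ∀ η, ‖db Γ ξ η‖ ≤ e1 ξ * len ξ η := by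
    intro ξ hξ η
    obtain ⟨h61, h62, -, h64, -, -⟩ := h6 x hx0 hx1 ξ hξ
    have hφd : HasFDerivAt (fun ξ => U (Ph x ξ)) (U.comp (fderiv ℂ (Ph x) ξ)) ξ :=
      U.hasFDerivAt.comp ξ h61.hasFDerivAt
    have hγd : DifferentiableAt ℝ γ (U (Ph x ξ)) :=
      ((hγ.differentiableOn (by norm_num)) _ (hφB ξ hξ)).differentiableAt
        (B_open.mem_nhds (hφB ξ hξ))
    have hgd : DifferentiableAt ℝ (fun ξ => γ (U (Ph x ξ))) ξ :=
      ((hγC.differentiableOn (by norm_num)) _ hξ).differentiableAt (B_open.mem_nhds hξ)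
    have hvd := hol_v hx0 hx1 (d + 2) hξ
    rw [hΓ, db_mul hgd (hvd.restrictScalars ℝ), db_hol hvd, mul_zero, zero_add,
      db_comp hφd.differentiableAt hγd, hφd.fderiv]
    simp only [ContinuousLinearMap.comp_apply, h62]
    rw [norm_mul]
    have h := hdb _ (hφB ξ hξ) (U (dPh x ξ η))
    rw [hU.len, h64] at h
    simp only [norm_pow, norm_inv, he1]
    calc (‖1 - (x : ℂ) * ξ.1‖⁻¹) ^ (d + 2) * ‖db γ (U (Ph x ξ)) (U (dPh x ξ η))‖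
        ≤ (‖1 - (x : ℂ) * ξ.1‖⁻¹) ^ (d + 2) * (e (U (Ph x ξ)) * len ξ η) := by gcongr
      _ = e (U (Ph x ξ)) * (‖1 - (x : ℂ) * ξ.1‖⁻¹) ^ (d + 2) * len ξ η := by ring
  have hest := h2 Γ _ e1 hΓC hΓM he1m he10 hΓdb
  -- the majorant
  have hmaj : ∫⁻ w in B d, ENNReal.ofReal (e w * N290.RJ.ker z w) =
      ∫⁻ ξ in B d, ENNReal.ofReal (e1 ξ / nm ξ ^ (2 * d + 1)) := by
    rw [hUl (fun w => ENNReal.ofReal (e w * N290.RJ.ker z w)), hPl]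
    · refine setLIntegral_congr_fun B_meas ?_
      intro ξ hξ
      obtain ⟨-, -, -, -, h65, h66⟩ := h6 x hx0 hx1 ξ hξ
      have hu := u_ne hx0 hx1 hξ
      have hun : 0 < ‖1 - (x : ℂ) * ξ.1‖ := norm_pos_iff.2 hu
      have hk : N290.RJ.ker z (U (Ph x ξ)) = N290.RJ.ker ((x : ℂ), 0) (Ph x ξ) := by
        rw [← hUz, hU.ker]
      have hD : Real.sqrt (Dl ((x : ℂ), 0) (Ph x ξ)) =
          (1 - x ^ 2) * nm ξ / ‖1 - (x : ℂ) * ξ.1‖ := by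
        rw [h66, ← nm_sq]
        rw [show (1 - x ^ 2) ^ 2 * nm ξ ^ 2 / ‖1 - (x : ℂ) * ξ.1‖ ^ 2 =
          ((1 - x ^ 2) * nm ξ / ‖1 - (x : ℂ) * ξ.1‖) ^ 2 by ring]
        exact Real.sqrt_sq (by have := nm_nonneg ξ; positivity)
      have hI : ‖1 - ip ((x : ℂ), 0) (Ph x ξ)‖ = (1 - x ^ 2) / ‖1 - (x : ℂ) * ξ.1‖ := by
        rw [h65, norm_div, RCLike.norm_conj]
        congr 1
        have : ((1 : ℂ) - (x : ℂ) ^ 2) = ((1 - x ^ 2 : ℝ) : ℂ) := by push_cast; ring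
        rw [this, Complex.norm_real, Real.norm_eq_abs, abs_of_pos hx2]
      simp only [hk]
      rw [← ENNReal.ofReal_mul (by positivity)]
      congr 1
      unfold Pool.Agent.N290.RJ.ker
      rw [hD, hI, he1]
      simp only []
      obtain ⟨a, ha⟩ : ∃ a : ℝ, a = 1 - x ^ 2 := ⟨_, rfl⟩
      obtain ⟨b, hb⟩ : ∃ b : ℝ, b = ‖1 - (x : ℂ) * ξ.1‖ := ⟨_, rfl⟩
      obtain ⟨c, hc⟩ : ∃ c : ℝ, c = nm ξ := ⟨_, rfl⟩
      rw [← ha] at hx2 ⊢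
      rw [← hb] at hun ⊢
      rw [← hc]
      have ha' := hx2.ne'
      have hb' := hun.ne'
      by_cases hn : c = 0
      · simp [hn]
      · rw [div_pow, div_pow, div_pow, mul_pow, inv_pow]
        have e1' : (b ^ 2) ^ (d + 2) = b ^ d * b ^ d * b ^ 4 := by ring
        have e2' : b ^ (2 * d + 1) = b ^ d * b ^ d * b := by ring
        have e3' : a ^ (2 * d + 1) = a ^ d * a ^ d * a := by ring
        have e4' : a ^ (d + 2) = a ^ d * a ^ 2 := by ring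
        have e5' : b ^ (d + 2) = b ^ d * b ^ 2 := by ring
        rw [e1', e2', e3', e4', e5']
        have q1 : a ^ d ≠ 0 := pow_ne_zero _ ha'
        have q2 : b ^ d ≠ 0 := pow_ne_zero _ hb'
        have q3 : c ^ (2 * d + 1) ≠ 0 := pow_ne_zero _ hn
        generalize a ^ d = A at q1 ⊢
        generalize b ^ d = A2 at q2 ⊢
        generalize c ^ (2 * d + 1) = A3 at q3 ⊢
        field_simp
    · have h1 : Measurable (fun ξ => e (U ξ) * N290.RJ.ker z (U ξ)) :=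
        (he.comp hUm).mul ((measurable_ker z).comp hUm)
      exact h1.ennreal_ofReal
  rw [hmaj]
  -- the constant
  have hΓi : IntegrableOn Γ (B d) := by
    refine ⟨hΓC.continuousOn.aestronglyMeasurable B_meas, ?_⟩
    have : IsFiniteMeasure (volume.restrict (B d)) := ⟨by
      rw [Measure.restrict_apply_univ]; exact hvol1⟩
    refine HasFiniteIntegral.of_bounded (C := M * ((1 - x)⁻¹) ^ (d + 2)) ?_
    exact (ae_restrict_iff' B_meas).2 (Eventually.of_forall hΓM)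
  have hconst : IntegrableOn (fun _ : E d => Γ 0) (B d) := by
    rw [integrableOn_const_iff]
    · exact Or.inr hvol1
  have hsub : ∫ ξ in B d, (Γ ξ - Γ 0) = (∫ ξ in B d, Γ ξ) - (V : ℂ) * Γ 0 := by
    rw [integral_sub hΓi hconst, setIntegral_const, Measure.real, ← hV, Complex.real_smul]
  have hfinal : γ z - ((1 / V : ℝ) : ℂ) * ∫ w in B d, γ w / (1 - ip z w) ^ (d + 2) =
      -(((1 / V : ℝ) : ℂ) * ∫ ξ in B d, (Γ ξ - Γ 0)) := by
    rw [hint, hsub, hΓ0]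
    have hp : (V : ℂ) ≠ 0 := by exact_mod_cast hVpos.ne'
    push_cast
    field_simp
    ring
  rw [hfinal, norm_neg, norm_mul, Complex.norm_real, Real.norm_eq_abs,
    abs_of_pos (show 0 < 1 / V by positivity), ENNReal.ofReal_mul (by positivity)]
  gcongr

end Pool.Agent.N7.RJ
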